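import Pool.Agent.Run7.h892.CG.Stm
import Pool.Agent.H565R2.NS.Leg

/-! Piece LEG of project CG (helper892). -/

set_option autoImplicit false

namespace Pool.Agent.Run7.h609.CG

open Pool.Agent.Run7.h892.CG

/-- a square root of `-p` modulo a squarefree number from the square roots modulo the prime factors -/
lemma glue (p : ℤ) (n : ℕ) : Squarefree n → (∀ q : ℕ, q.Prime → q ∣ n → ∃ r : ℤ, (q : ℤ) ∣ r ^ 2 + p) →
    ∃ r : ℤ, (n : ℤ) ∣ r ^ 2 + p := by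
  induction n using induction_on_primes with
  | zero =>
    intro h
    exact absurd h not_squarefree_zero
  | one =>
    intro _ _
    exact ⟨0, by simp⟩
  | prime_mul q a hq ih =>
    intro hs h
    have hsa : Squarefree a := hs.squarefree_of_dvd (Dvd.intro_left _ rfl)
    obtain ⟨r2, hr2⟩ := ih hsa (fun q' hq' hd => h q' hq' (Dvd.dvd.mul_left hd _))
    obtain ⟨r1, hr1⟩ := h q hq (Dvd.intro _ rfl)
    have hc : Nat.Coprime q a := by
      rw [Nat.Prime.coprime_iff_not_dvd hq]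
      intro hd
      have h1 : q * q ∣ q * a := Nat.mul_dvd_mul_left q hd
      have h2 := hs q h1
      exact hq.one_lt.ne' (Nat.isUnit_iff.1 h2)
    have hc' : IsCoprime (q : ℤ) (a : ℤ) := Nat.isCoprime_iff_coprime.2 hc
    obtain ⟨u, v, huv⟩ := id hc'
    refine ⟨r1 * (v * a) + r2 * (u * q), ?_⟩
    push_cast
    apply IsCoprime.mul_dvd hc'
    · obtain ⟨c, hc1⟩ := hr1
      have e : v * a = 1 - u * q := by linarith
      refine ⟨c + (r1 * (-2 * r1 * u + r1 * u ^ 2 * q + 2 * (1 - u * q) * r2 * u) + r2 ^ 2 * u ^ 2 * q), ?_⟩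
      rw [e]
      linear_combination hc1
    · obtain ⟨c, hc1⟩ := hr2
      have e : u * q = 1 - v * a := by linarith
      refine ⟨c + (r2 * (-2 * r2 * v + r2 * v ^ 2 * a + 2 * (1 - v * a) * r1 * v) + r1 ^ 2 * v ^ 2 * a), ?_⟩
      rw [e]
      linear_combination hc1

lemma sq_lift {q : ℕ} [NeZero q] {b : ℤ} (h : IsSquare ((b : ℤ) : ZMod q)) : ∃ r : ℤ, (q : ℤ) ∣ r ^ 2 - b := by
  obtain ⟨y, hy⟩ := h
  refine ⟨(y.val : ℤ), ?_⟩
  rw [← ZMod.intCast_zmod_eq_zero_iff_dvd]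
  push_cast
  rw [ZMod.natCast_zmod_val, hy]
  ring

theorem t_LEG : S_LEG := by
  intro p m hp hsq hp8 hm8 hpm hq hmp
  haveI : Fact p.Prime := ⟨hp⟩
  haveI : NeZero p := ⟨hp.ne_zero⟩
  have hcop : Nat.Coprime p m := (Nat.Prime.coprime_iff_not_dvd hp).2 hpm
  have h1 : ∃ r : ℤ, (m : ℤ) ∣ r ^ 2 + p := by
    apply glue (p : ℤ) m hsq
    intro q hqp hqm
    haveI : Fact q.Prime := ⟨hqp⟩
    haveI : NeZero q := ⟨hqp.ne_zero⟩
    obtain ⟨h4, hs⟩ := hq q hqp hqm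
    have hn : IsSquare (-1 : ZMod q) := ZMod.exists_sq_eq_neg_one_iff.2 (by omega)
    have hmul : IsSquare (((-(p : ℤ) : ℤ)) : ZMod q) := by
      have := hn.mul hs
      have e : ((-(p : ℤ) : ℤ) : ZMod q) = -1 * ((p : ℕ) : ZMod q) := by push_cast; ring
      rw [e]
      exact this
    obtain ⟨r, hr⟩ := sq_lift hmul
    exact ⟨r, by simpa [sub_neg_eq_add] using hr⟩
  have h2 : ∃ s : ℤ, (p : ℤ) ∣ s ^ 2 - m := by
    apply sq_lift
    have e : (((m : ℤ) : ℤ) : ZMod p) = ((m : ℕ) : ZMod p) := by push_cast; ring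
    rw [e]
    exact hmp
  obtain ⟨X, Y, Z, hZ, he⟩ := Pool.Agent.H565R2.NS.legendre hp8 hm8 hcop h1 h2
  -- primitive solution
  have hg0 : (Int.gcd (Int.gcd X Y : ℤ) Z : ℤ) ≠ 0 := by
    intro h
    have : Int.gcd (Int.gcd X Y : ℤ) Z = 0 := by exact_mod_cast h
    rw [Int.gcd_eq_zero_iff] at this
    exact hZ this.2
  set g : ℤ := (Int.gcd (Int.gcd X Y : ℤ) Z : ℤ) with hg
  have hgX : g ∣ X := (Int.gcd_dvd_left ..).trans (Int.gcd_dvd_left ..)
  have hgY : g ∣ Y := (Int.gcd_dvd_left ..).trans (Int.gcd_dvd_right ..)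
  have hgZ : g ∣ Z := Int.gcd_dvd_right ..
  obtain ⟨x, hx⟩ := hgX
  obtain ⟨y, hy⟩ := hgY
  obtain ⟨z, hz⟩ := hgZ
  have hprim : ∀ q : ℕ, q.Prime → (q : ℤ) ∣ x → (q : ℤ) ∣ y → (q : ℤ) ∣ z → False := by
    intro q hqp a1 a2 a3
    have d1 : g * q ∣ X := by rw [hx]; exact mul_dvd_mul_left g a1
    have d2 : g * q ∣ Y := by rw [hy]; exact mul_dvd_mul_left g a2
    have d3 : g * q ∣ Z := by rw [hz]; exact mul_dvd_mul_left g a3
    have d4 : g * q ∣ (Int.gcd X Y : ℤ) := Int.dvd_coe_gcd d1 d2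
    have d5 : g * q ∣ g := Int.dvd_coe_gcd d4 d3
    have d6 : (q : ℤ) ∣ 1 := by
      have : g * q ∣ g * 1 := by rw [mul_one]; exact d5
      exact (mul_dvd_mul_iff_left hg0).1 this
    have := Int.natCast_dvd_natCast.1 (by simpa using d6 : (q : ℤ) ∣ ((1 : ℕ) : ℤ))
    exact hqp.one_lt.ne' (Nat.dvd_one.1 this)
  have he2 : x ^ 2 + p * y ^ 2 = m * z ^ 2 := by
    rw [hx, hy, hz] at he
    have : g ^ 2 * (x ^ 2 + p * y ^ 2) = g ^ 2 * (m * z ^ 2) := by linear_combination he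
    exact mul_left_cancel₀ (pow_ne_zero 2 hg0) this
  have hpZ : Prime (p : ℤ) := Nat.prime_iff_prime_int.1 hp
  have hcxy : IsCoprime x y := by
    rw [Int.isCoprime_iff_gcd_eq_one]
    by_contra hne
    obtain ⟨q, hqp, hqd⟩ := Nat.exists_prime_and_dvd hne
    have hqZ : Prime (q : ℤ) := Nat.prime_iff_prime_int.1 hqp
    have a1 : (q : ℤ) ∣ x := (Int.natCast_dvd_natCast.2 hqd).trans (Int.gcd_dvd_left ..)
    have a2 : (q : ℤ) ∣ y := (Int.natCast_dvd_natCast.2 hqd).trans (Int.gcd_dvd_right ..)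
    have a3 : (q : ℤ) ^ 2 ∣ m * z ^ 2 := by
      rw [← he2]
      exact dvd_add (pow_dvd_pow_of_dvd a1 2) (Dvd.dvd.mul_left (pow_dvd_pow_of_dvd a2 2) _)
    by_cases a4 : (q : ℤ) ∣ z
    · exact hprim q hqp a1 a2 a4
    · have c1 : IsCoprime ((q : ℤ) ^ 2) (z ^ 2) := by
        apply IsCoprime.pow
        exact (Prime.coprime_iff_not_dvd hqZ).2 a4
      have c2 : (q : ℤ) ^ 2 ∣ m := c1.dvd_of_dvd_mul_right a3
      have c3 : q ^ 2 ∣ m := by exact_mod_cast c2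
      have c4 := hsq q (by rwa [← sq])
      exact hqp.one_lt.ne' (Nat.isUnit_iff.1 c4)
  have hpx : ¬ (p : ℤ) ∣ x := by
    intro hd
    have a1 : (p : ℤ) ∣ m * z ^ 2 := by
      rw [← he2]
      exact dvd_add (Dvd.dvd.pow hd two_ne_zero) (Dvd.intro _ rfl)
    have a2 : (p : ℤ) ∣ z := by
      rcases hpZ.dvd_or_dvd a1 with h | h
      · exact absurd (Int.natCast_dvd_natCast.1 h) hpm
      · exact hpZ.dvd_of_dvd_pow h
    have a3 : (p : ℤ) * p ∣ p * y ^ 2 := by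
      have e : (p : ℤ) * y ^ 2 = m * z ^ 2 - x ^ 2 := by linarith
      rw [e, ← sq]
      exact dvd_sub (Dvd.dvd.mul_left (pow_dvd_pow_of_dvd a2 2) _) (pow_dvd_pow_of_dvd hd 2)
    have a4 : (p : ℤ) ∣ y ^ 2 := (mul_dvd_mul_iff_left hpZ.ne_zero).1 a3
    have a5 : (p : ℤ) ∣ y := hpZ.dvd_of_dvd_pow a4
    exact hpZ.not_unit (hcxy.isUnit_of_dvd' hd a5)
  have hcpx : IsCoprime ((p : ℤ) * y) x :=
    IsCoprime.mul_left ((Prime.coprime_iff_not_dvd hpZ).2 hpx) hcxy.symm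
  have hx0 : x ≠ 0 := by
    rintro rfl
    exact hpx (dvd_zero _)
  rcases Int.even_or_odd x with hev | hod
  · obtain ⟨w, hw⟩ := hev
    refine ⟨p * y, z, w, ?_, ?_, Dvd.intro _ rfl, ?_⟩
    · have e : x = 2 * w := by rw [hw]; ring
      rw [e] at he2
      linear_combination (p : ℤ) * he2
    · exact hcpx.of_isCoprime_of_dvd_right ⟨2, by rw [hw]; ring⟩
    · rintro rfl
      exact hx0 (by rw [hw]; ring)
  · refine ⟨2 * (p * y), 2 * z, x, ?_, ?_, Dvd.intro (2 * y) (by ring), hx0⟩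
    · linear_combination 4 * (p : ℤ) * he2
    · apply IsCoprime.mul_left _ hcpx
      obtain ⟨w, hw⟩ := hod
      exact ⟨-w, 1, by rw [hw]; ring⟩

end Pool.Agent.Run7.h609.CG
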